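import Pool.Agent.H67.AG.T7

/-!
ABSOLUTE GAP (`MP_c59857_nt`), DRM: the dichotomy on the good points.
-/

set_option autoImplicit false

open MeasureTheory

namespace Pool.Agent.H51.AG

open Pool.Agent.H67.AG

theorem tup_D1 (c : CtxE) : Tup c.D1 := by
  refine ⟨fun i => ?_, fun i q => c.Dv _⟩
  exact (c.Dm.comp (c.T.measurable.iterate _)).comp measurable_fst

theorem tup_D2 (c : CtxE) : Tup c.D2 := by
  refine ⟨fun i => ?_, fun i q => c.Dv _⟩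
  exact (c.Dm.comp (c.T.measurable.iterate _)).comp measurable_snd

theorem Rt_le {Ω : Type} [mΩ : MeasurableSpace Ω] (T : Ω ≃ᵐ Ω) : Rt T ≤ mΩ :=
  iSup_le fun w => MeasurableSpace.invariants_le (T^[w.factorial])

theorem pf_DRM (h : T_DR) (htri : T_TRI) (hj2 : T_J2) (hj3 : T_J3) : T_DRM := by
  intro c Z hZ
  obtain ⟨hp, h1, h2, _⟩ := hj2 c.X c.μ Z
  obtain ⟨hT, _⟩ := hj3 c.X c.μ c.T Z c.erg.toMeasurePreserving hZ
  have hd := h c (JJ c.μ Z) hT h1 h2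
  have ht := (htri (c.X × c.X) (Rt (TT c.T)) (JJ c.μ Z) c.k c.D1 c.D2 c.D1 (Rt_le _)
    (tup_D1 c) (tup_D2 c) (tup_D1 c)).2.2
  filter_upwards [hd, ht] with q hq hq' g1 g2
  have e1 := hq g1.1 g2.1
  have e2 := g1.2
  have e3 := g2.2
  have e4 := hq'.1
  refine ⟨e4, ?_⟩
  rw [← not_lt, ← not_lt, ← not_and_or]
  rintro ⟨a1, a2⟩
  rw [CtxE.MR] at a1 a2
  rw [κ₀] at e2 e3
  rw [m1] at a1 a2
  nlinarith [mul_pos (sub_pos.2 a1) (sub_pos.2 a2)]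

end Pool.Agent.H51.AG
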