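import Pool.Agent.H24.AG.Targets

/-!
ABSOLUTE GAP (`MP_c59857_nt`), VVD: the inequality of van der Corput, `j` times.
-/

set_option autoImplicit false

open MeasureTheory Finset

namespace Pool.Agent.H51.AG

open Pool.Agent.H24.AG
open Pool.Agent.H24.T2 (box cub sum_box_succ mem_box)

section

variable {X : Type} [MeasurableSpace X] {μ : Measure X} [IsProbabilityMeasure μ] {T : X ≃ᵐ X}

theorem vd_shift (hT : MeasurePreserving T μ μ) (n : ℤ) {g : X → ℝ} (hg : Measurable g) :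
    ∫ x, g (zp T n x) ∂μ = ∫ x, g x ∂μ := by
  have h := integral_map (measurable_zp T n).aemeasurable (μ := μ) (f := g)
    hg.aestronglyMeasurable
  rw [(mp_zp hT n).map_eq] at h
  exact h.symm

theorem vd_int {g : X → ℝ} (hg : Measurable g) (C : ℝ) (hb : ∀ x, |g x| ≤ C) :
    Integrable g μ :=
  Integrable.of_bound hg.aestronglyMeasurable C
    (Filter.Eventually.of_forall fun x => by rw [Real.norm_eq_abs]; exact hb x)

theorem vd_sq {h : X → ℝ} (hh : Measurable h) (C : ℝ) (hb : ∀ x, |h x| ≤ C) :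
    (∫ x, h x ∂μ) ^ 2 ≤ ∫ x, (h x) ^ 2 ∂μ := by
  have h1 : Integrable h μ := vd_int hh C hb
  have h2 : Integrable (fun x => (h x) ^ 2) μ := by
    refine vd_int (hh.pow_const 2) (C ^ 2) fun x => ?_
    rw [abs_pow]
    exact pow_le_pow_left₀ (abs_nonneg _) (hb x) 2
  set c := ∫ x, h x ∂μ with hc
  have h3 : 0 ≤ ∫ x, (h x - c) ^ 2 ∂μ := integral_nonneg fun x => sq_nonneg _
  have h4 : ∫ x, (h x - c) ^ 2 ∂μ = ∫ x, ((h x) ^ 2 - (2 * c) * h x + c ^ 2) ∂μ := by
    congr 1
    funext x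
    ring
  have h5 : Integrable (fun x => (2 * c) * h x) μ := h1.const_mul _
  have h6 : Integrable (fun x => (h x) ^ 2 - (2 * c) * h x) μ := h2.sub h5
  have h7 : ∫ x, ((h x) ^ 2 - (2 * c) * h x + c ^ 2) ∂μ =
      ∫ x, ((h x) ^ 2 - (2 * c) * h x) ∂μ + ∫ _x, c ^ 2 ∂μ :=
    integral_add h6 (integrable_const _)
  have h8 : ∫ x, ((h x) ^ 2 - (2 * c) * h x) ∂μ =
      ∫ x, (h x) ^ 2 ∂μ - ∫ x, (2 * c) * h x ∂μ := integral_sub h2 h5
  rw [h4, h7, h8, integral_const_mul, ← hc, integral_const, probReal_univ] at h3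
  simp only [smul_eq_mul, one_mul] at h3
  linarith [sq c]

theorem vd_cs {f g : X → ℝ} (hf : Measurable f) (hg : Measurable g) (C : ℝ)
    (hf1 : ∀ x, |f x| ≤ 1) (hb : ∀ x, |g x| ≤ C) :
    |∫ x, f x * g x ∂μ| ^ 2 ≤ ∫ x, (g x) ^ 2 ∂μ := by
  rw [sq_abs]
  have hfg : ∀ x, |f x * g x| ≤ C := fun x => by
    rw [abs_mul]
    have h0 := abs_nonneg (g x)
    have h1 := abs_nonneg (f x)
    nlinarith [hf1 x, hb x]
  have h1 := vd_sq (μ := μ) (hf.mul hg) C hfg
  refine h1.trans ?_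
  have hgg : ∀ x, |(g x) ^ 2| ≤ C ^ 2 := fun x => by
    rw [abs_pow]
    exact pow_le_pow_left₀ (abs_nonneg _) (hb x) 2
  have hff : ∀ x, |(f x * g x) ^ 2| ≤ C ^ 2 := fun x => by
    rw [abs_pow]
    exact pow_le_pow_left₀ (abs_nonneg _) (hfg x) 2
  refine integral_mono (vd_int ((hf.mul hg).pow_const 2) (C ^ 2) hff)
    (vd_int (hg.pow_const 2) (C ^ 2) hgg) fun x => ?_
  show (f x * g x) ^ 2 ≤ (g x) ^ 2
  rw [mul_pow]
  have h2 : (f x) ^ 2 ≤ 1 := by
    rw [← sq_abs]
    exact pow_le_one₀ (abs_nonneg _) (hf1 x)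
  nlinarith [sq_nonneg (g x)]

theorem vd_prod {k : ℕ} {f : Fin k → X → ℝ} (hf : ∀ i, Measurable (f i))
    (hb : ∀ i x, |f i x| ≤ 1) :
    Measurable (fun x => ∏ i, f i x) ∧ ∀ x, |∏ i, f i x| ≤ 1 := by
  constructor
  · exact Finset.measurable_prod _ fun i _ => hf i
  · intro x
    rw [Finset.abs_prod]
    exact Finset.prod_le_one (fun i _ => abs_nonneg _) fun i _ => hb i x

end

theorem vd_pairs (A : Finset ℤ) (N : ℕ) (hA : ∀ u ∈ A, ∀ u' ∈ A, |u - u'| ≤ (N : ℤ))
    (K : ℤ → ℤ → ℝ) : ∑ u ∈ A, ∑ u' ∈ A, K u u' =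
      ∑ s ∈ Finset.Icc (-(N : ℤ)) N, ∑ u ∈ A.filter (fun n => n + s ∈ A), K u (u + s) := by
  classical
  rw [← Finset.sum_product', Finset.sum_sigma']
  apply Finset.sum_nbij' (fun x => ⟨x.2 - x.1, x.1⟩) (fun x => (x.2, x.2 + x.1))
  · rintro ⟨a, b⟩ hx
    rw [Finset.mem_product] at hx
    rw [Finset.mem_sigma, Finset.mem_filter, Finset.mem_Icc]
    refine ⟨abs_le.1 (hA b hx.2 a hx.1), hx.1, ?_⟩
    show a + (b - a) ∈ A
    rw [show a + (b - a) = b by ring]
    exact hx.2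
  · rintro ⟨s, n⟩ hx
    rw [Finset.mem_sigma, Finset.mem_filter] at hx
    rw [Finset.mem_product]
    exact hx.2
  · rintro ⟨a, b⟩ _
    simp
  · rintro ⟨s, n⟩ _
    simp
  · rintro ⟨a, b⟩ _
    simp

theorem vd_exp (j : ℕ) : 2 ^ j - 1 + (2 ^ j - 1 - j) = 2 ^ (j + 1) - 1 - (j + 1) := by
  have h : j < 2 ^ j := Nat.lt_two_pow_self
  rw [pow_succ]
  omega

theorem pf_VVD : T_VVD := by
  intro X _ μ _ T j
  induction j with
  | zero =>
    intro N b A F hT hF hb hA
    have h0 : box 0 N = {default} := by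
      ext t
      rw [mem_box]
      simp [Subsingleton.elim t default]
    rw [h0, Finset.sum_singleton, vv_zero]
    have h1 : ∀ u ∈ A, ∫ x, ∏ i : Fin (0 + 1), F i (zp T (u * b i) x) ∂μ = ∫ x, F 0 x ∂μ := by
      intro u _
      have : (fun x => ∏ i : Fin (0 + 1), F i (zp T (u * b i) x)) =
          fun x => F 0 (zp T (u * b 0) x) := by
        funext x
        rw [Fin.prod_univ_succ]
        simp
      rw [this]
      exact vd_shift hT _ (hF 0)
    rw [Finset.sum_congr rfl h1, Finset.sum_const, nsmul_eq_mul, abs_mul, Nat.abs_cast]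
    simp [cub]
  | succ j ih =>
    intro N b A F hT hF hb hA
    set p : Fin (j + 1) → Fin (j + 1 + 1) := Fin.succAbove 1 with hp
    have hp0 : p 0 = 0 := by
      rw [hp, show (1 : Fin (j + 1 + 1)) = (0 : Fin (j + 1)).succ from rfl]
      exact Fin.succ_succAbove_zero _
    have hps : ∀ i : Fin j, p i.succ = i.succ.succ := by
      intro i
      rw [hp, show (1 : Fin (j + 1 + 1)) = (0 : Fin (j + 1)).succ from rfl,
        Fin.succ_succAbove_succ, Fin.zero_succAbove]
    -- the factors without the index 1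
    set G : ℤ → X → ℝ := fun u x => ∏ i : Fin (j + 1), F (p i) (zp T (u * b (p i)) x) with hG
    have hGm : ∀ u, Measurable (G u) ∧ ∀ x, |G u x| ≤ 1 := fun u =>
      vd_prod (f := fun i x => F (p i) (zp T (u * b (p i)) x))
        (fun i => (hF (p i)).comp (measurable_zp T _)) (fun i x => hb _ _)
    set h : ℤ → X → ℝ := fun u y => G u (zp T (-(u * b 1)) y) with hh
    have hhm : ∀ u, Measurable (h u) := fun u => (hGm u).1.comp (measurable_zp T _)
    have hhb : ∀ u x, |h u x| ≤ 1 := fun u x => (hGm u).2 _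
    have hV : ∑ u ∈ A, ∫ x, ∏ i, F i (zp T (u * b i) x) ∂μ =
        ∫ y, F 1 y * ∑ u ∈ A, h u y ∂μ := by
      have e1 : (fun y => F 1 y * ∑ u ∈ A, h u y) = fun y => ∑ u ∈ A, F 1 y * h u y := by
        funext y
        rw [Finset.mul_sum]
      rw [e1, integral_finsetSum]
      · refine Finset.sum_congr rfl fun u _ => ?_
        have e2 := vd_shift hT (u * b 1) ((hF 1).mul (hhm u))
        simp only [Pi.mul_apply] at e2
        rw [← e2]
        congr 1
        funext x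
        rw [Fin.prod_univ_succAbove _ 1]
        show _ = F 1 (zp T (u * b 1) x) * G u (zp T (-(u * b 1)) (zp T (u * b 1) x))
        rw [← zp_add, neg_add_cancel, zp_zero]
      · intro u _
        refine vd_int ((hF 1).mul (hhm u)) 1 fun x => ?_
        rw [abs_mul]
        exact mul_le_one₀ (hb 1 x) (abs_nonneg _) (hhb u x)
    -- the shifted functions
    set F' : ℤ → Fin (j + 1) → X → ℝ := fun s i x =>
      F (p i) x * F (p i) (zp T (s * (b (p i) - b 1)) x) with hF'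
    have hF'm : ∀ s i, Measurable (F' s i) := fun s i =>
      (hF (p i)).mul ((hF (p i)).comp (measurable_zp T _))
    have hF'b : ∀ s i x, |F' s i x| ≤ 1 := fun s i x => by
      show |F (p i) x * F (p i) (zp T (s * (b (p i) - b 1)) x)| ≤ 1
      rw [abs_mul]
      exact mul_le_one₀ (hb _ _) (abs_nonneg _) (hb _ _)
    set W : ℤ → ℝ := fun s => ∑ u ∈ A.filter (fun n => n + s ∈ A),
      ∫ x, ∏ i, F' s i (zp T (u * b (p i)) x) ∂μ with hW
    have hSm : Measurable (fun y => ∑ u ∈ A, h u y) :=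
      Finset.measurable_sum _ fun u _ => hhm u
    have hSb : ∀ y, |∑ u ∈ A, h u y| ≤ (A.card : ℝ) := fun y => by
      refine (Finset.abs_sum_le_sum_abs _ _).trans ?_
      refine (Finset.sum_le_sum fun u _ => hhb u y).trans ?_
      rw [Finset.sum_const, nsmul_eq_mul, mul_one]
    have hsq : ∫ y, (∑ u ∈ A, h u y) ^ 2 ∂μ = ∑ s ∈ Finset.Icc (-(N : ℤ)) N, W s := by
      have e1 : (fun y => (∑ u ∈ A, h u y) ^ 2) =
          fun y => ∑ u ∈ A, ∑ u' ∈ A, h u y * h u' y := by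
        funext y
        rw [sq, Finset.sum_mul_sum]
      have hI : ∀ u u', Integrable (fun y => h u y * h u' y) μ := fun u u' =>
        vd_int ((hhm u).mul (hhm u')) 1 fun x => by
          rw [abs_mul]
          exact mul_le_one₀ (hhb u x) (abs_nonneg _) (hhb u' x)
      rw [e1, integral_finsetSum _ fun u _ => integrable_finsetSum _ fun u' _ => hI u u']
      have e2 : ∀ u ∈ A, ∫ y, ∑ u' ∈ A, h u y * h u' y ∂μ =
          ∑ u' ∈ A, ∫ y, h u y * h u' y ∂μ := fun u _ =>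
        integral_finsetSum _ fun u' _ => hI u u'
      rw [Finset.sum_congr rfl e2, vd_pairs A N hA (fun u u' => ∫ y, h u y * h u' y ∂μ)]
      refine Finset.sum_congr rfl fun s _ => Finset.sum_congr rfl fun u _ => ?_
      have e3 := vd_shift hT (u * b 1) ((hhm u).mul (hhm (u + s)))
      simp only [Pi.mul_apply] at e3
      rw [← e3]
      congr 1
      funext x
      show G u (zp T (-(u * b 1)) (zp T (u * b 1) x)) *
        G (u + s) (zp T (-((u + s) * b 1)) (zp T (u * b 1) x)) = _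
      rw [← zp_add, ← zp_add, neg_add_cancel, zp_zero,
        show -((u + s) * b 1) + u * b 1 = -(s * b 1) by ring, hG]
      show (∏ i, F (p i) (zp T (u * b (p i)) x)) *
        (∏ i, F (p i) (zp T ((u + s) * b (p i)) (zp T (-(s * b 1)) x))) = _
      rw [← Finset.prod_mul_distrib]
      refine Finset.prod_congr rfl fun i _ => ?_
      show _ = F (p i) (zp T (u * b (p i)) x) *
        F (p i) (zp T (s * (b (p i) - b 1)) (zp T (u * b (p i)) x))
      rw [← zp_add, ← zp_add]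
      congr 3
      ring
    have hA' : ∀ s, ∀ u ∈ A.filter (fun n => n + s ∈ A),
        ∀ u' ∈ A.filter (fun n => n + s ∈ A), |u - u'| ≤ (N : ℤ) := fun s u hu u' hu' =>
      hA u (Finset.mem_filter.1 hu).1 u' (Finset.mem_filter.1 hu').1
    have hIH : ∀ s, |W s| ^ (2 ^ j) ≤ (2 * N + 1 : ℝ) ^ (2 ^ j - 1 - j) *
        ∑ t ∈ box j N, ((cub j (A.filter (fun n => n + s ∈ A)) t).card : ℝ) *
          |vv μ T j (fun i => b (p 0) - b (p i.succ)) (F' s 0) t| := fun s =>
      ih N (fun i => b (p i)) (A.filter (fun n => n + s ∈ A)) (F' s) hT (hF'm s) (hF'b s)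
        (hA' s)
    have hVle : |∑ u ∈ A, ∫ x, ∏ i, F i (zp T (u * b i) x) ∂μ| ^ 2 ≤
        ∑ s ∈ Finset.Icc (-(N : ℤ)) N, |W s| := by
      rw [hV]
      refine (vd_cs (hF 1) hSm (A.card : ℝ) (hb 1) hSb).trans ?_
      rw [hsq]
      exact Finset.sum_le_sum fun s _ => le_abs_self _
    have hcard : ((Finset.Icc (-(N : ℤ)) N).card : ℝ) = 2 * N + 1 := by
      rw [Int.card_Icc]
      have : ((N : ℤ) + 1 - -(N : ℤ)).toNat = 2 * N + 1 := by omega
      rw [this]
      push_cast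
      ring
    obtain ⟨n, hn⟩ : ∃ n, 2 ^ j = n + 1 := ⟨2 ^ j - 1, by
      have : 0 < 2 ^ j := by positivity
      omega⟩
    have hpow : (∑ s ∈ Finset.Icc (-(N : ℤ)) N, |W s|) ^ (2 ^ j) ≤
        (2 * N + 1 : ℝ) ^ (2 ^ j - 1) * ∑ s ∈ Finset.Icc (-(N : ℤ)) N, |W s| ^ (2 ^ j) := by
      have h3 := pow_sum_le_card_mul_sum_pow (s := Finset.Icc (-(N : ℤ)) N)
        (f := fun s => |W s|) (fun _ _ => abs_nonneg _) n
      rw [hcard] at h3
      rw [hn, Nat.add_sub_cancel]
      exact h3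
    have hN : (0 : ℝ) ≤ 2 * N + 1 := by positivity
    calc |∑ u ∈ A, ∫ x, ∏ i, F i (zp T (u * b i) x) ∂μ| ^ (2 ^ (j + 1))
        = (|∑ u ∈ A, ∫ x, ∏ i, F i (zp T (u * b i) x) ∂μ| ^ 2) ^ (2 ^ j) := by
          rw [← pow_mul, pow_succ']
      _ ≤ (∑ s ∈ Finset.Icc (-(N : ℤ)) N, |W s|) ^ (2 ^ j) :=
          pow_le_pow_left₀ (by positivity) hVle _
      _ ≤ _ := hpow
      _ ≤ (2 * N + 1 : ℝ) ^ (2 ^ j - 1) * ∑ s ∈ Finset.Icc (-(N : ℤ)) N,
          ((2 * N + 1 : ℝ) ^ (2 ^ j - 1 - j) *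
            ∑ t ∈ box j N, ((cub j (A.filter (fun n => n + s ∈ A)) t).card : ℝ) *
              |vv μ T j (fun i => b (p 0) - b (p i.succ)) (F' s 0) t|) :=
          mul_le_mul_of_nonneg_left (Finset.sum_le_sum fun s _ => hIH s) (pow_nonneg hN _)
      _ = (2 * N + 1 : ℝ) ^ (2 ^ (j + 1) - 1 - (j + 1)) *
          ∑ t ∈ box (j + 1) N, ((cub (j + 1) A t).card : ℝ) *
            |vv μ T (j + 1) (fun i => b 0 - b i.succ) (F 0) t| := by
          rw [← Finset.mul_sum, ← mul_assoc, ← pow_add, vd_exp, sum_box_succ]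
          congr 1
          refine Finset.sum_congr rfl fun s _ => Finset.sum_congr rfl fun t _ => ?_
          rw [vv_succ, Fin.cons_zero, Fin.tail_cons]
          have e1 : cub (j + 1) A (Fin.cons s t : Fin (j + 1) → ℤ) =
              cub j (A.filter (fun n => n + s ∈ A)) t := rfl
          rw [e1]
          have e2 : (Fin.tail fun i : Fin (j + 1) => b 0 - b i.succ) =
              fun i : Fin j => b (p 0) - b (p i.succ) := by
            funext i
            rw [hp0, hps]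
            rfl
          have e3 : F' s 0 = fun x => F 0 x * F 0 (zp T ((b 0 - b (Fin.succ 0)) * s) x) := by
            funext x
            show F (p 0) x * F (p 0) (zp T (s * (b (p 0) - b 1)) x) = _
            rw [hp0, mul_comm s]
            rfl
          rw [e2, e3]

end Pool.Agent.H51.AG
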