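import Pool.Agent.H38.AG.Targets

/-!
# MP_7ecdd4_nt: a pivot minor of minimal valuation (PIV)
-/

set_option autoImplicit false

open Pool.Agent.H38.RB Pool.Agent.H38.PS Pool.Agent.H82.RD Pool.Agent.H38.AB Pool.Agent.H38.AG

namespace Pool.Agent.H51.AG

/-- the matrix with the columns `P` -/
def sub {ι : Type} {d : ℕ} (U : Fin d → ι → ℤ) (P : Fin d → ι) : Matrix (Fin d) (Fin d) ℤ :=
  Matrix.of fun i j => U i (P j)

lemma exists_minor {ι : Type} [Fintype ι] {d : ℕ} (U : Fin d → ι → ℤ)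
    (hU : LinearIndependent ℚ (fun i => fun l => ((U i l : ℤ) : ℚ))) :
    ∃ P : Fin d → ι, (sub U P).det ≠ 0 := by
  classical
  obtain ⟨M, hM⟩ : ∃ M : Matrix (Fin d) ι ℚ, M = Matrix.of fun i l => ((U i l : ℤ) : ℚ) :=
    ⟨_, rfl⟩
  have h1 : LinearIndependent ℚ M.row := by
    rw [hM]
    exact hU
  have h2 : M.rank = d := by
    rw [h1.rank_matrix, Fintype.card_fin]
  have h3 := Submodule.exists_fun_fin_finrank_span_eq ℚ (Set.range M.col)
  rw [← Matrix.rank_eq_finrank_span_cols, h2] at h3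
  obtain ⟨f, hf, -, hli⟩ := h3
  choose P hP using hf
  refine ⟨P, ?_⟩
  have h4 : LinearIndependent ℚ ((sub U P).map (Int.castRingHom ℚ)).col := by
    have h5 : ((sub U P).map (Int.castRingHom ℚ)).col = f := by
      funext j
      rw [← hP j, hM]
      rfl
    rw [h5]
    exact hli
  rw [Matrix.linearIndependent_cols_iff_isUnit, Matrix.isUnit_iff_isUnit_det] at h4
  intro h0
  have h6 : ((sub U P).map (Int.castRingHom ℚ)).det = Int.castRingHom ℚ (sub U P).det :=
    ((Int.castRingHom ℚ).map_det (sub U P)).symm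
  rw [h6, h0, map_zero] at h4
  exact not_isUnit_zero h4

lemma det_bd {ι : Type} {d Bd : ℕ} {U : Fin d → ι → ℤ} (hU : ∀ i l, |U i l| ≤ (Bd : ℤ))
    (P : Fin d → ι) : |(sub U P).det| ≤ ((d.factorial * Bd ^ d : ℕ) : ℤ) := by
  have h := Matrix.det_le (A := sub U P) (abv := AbsoluteValue.abs) (x := (Bd : ℤ))
    (fun i j => hU i (P j))
  rw [Fintype.card_fin, nsmul_eq_mul] at h
  push_cast
  exact h

lemma padic_dvd {q : ℕ} [Fact q.Prime] {Δ x : ℤ} (hΔ : Δ ≠ 0)
    (h : x = 0 ∨ padicValInt q Δ ≤ padicValInt q x) : ∃ c : ℤ_[q], (Δ : ℤ_[q]) * c = (x : ℤ_[q]) := by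
  obtain ⟨u, hu⟩ := padicValInt_dvd (p := q) Δ
  obtain ⟨y, hy⟩ : (q : ℤ) ^ padicValInt q Δ ∣ x := (padicValInt_dvd_iff _ x).2 h
  have h1 : ¬ (q : ℤ) ∣ u := by
    rintro ⟨w, hw⟩
    have h2 : (q : ℤ) ^ (padicValInt q Δ + 1) ∣ Δ := by
      refine ⟨w, ?_⟩
      rw [pow_succ, mul_assoc, ← hw]
      exact hu
    rcases (padicValInt_dvd_iff _ Δ).1 h2 with h3 | h3
    · exact hΔ h3
    · omega
  have h2 : IsUnit (u : ℤ_[q]) := by
    rw [PadicInt.isUnit_iff]
    refine le_antisymm (PadicInt.norm_le_one _) ?_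
    by_contra h3
    exact h1 ((PadicInt.norm_int_lt_one_iff_dvd u).1 (not_le.1 h3))
  obtain ⟨w, hw⟩ := h2.exists_right_inv
  refine ⟨w * y, ?_⟩
  obtain ⟨v, hv⟩ : ∃ v : ℕ, v = padicValInt q Δ := ⟨_, rfl⟩
  rw [← hv] at hu hy
  have e1 : (Δ : ℤ_[q]) = (q : ℤ_[q]) ^ v * u := by
    rw [hu]
    push_cast
    rfl
  have e2 : (x : ℤ_[q]) = (q : ℤ_[q]) ^ v * y := by
    rw [hy]
    push_cast
    rfl
  rw [e1, e2]
  linear_combination ((q : ℤ_[q]) ^ v * y) * hw

theorem pf_PIV : T_PIV := by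
  intro q _ ι _ _ d Bd U hli hU
  obtain ⟨P₀, hP₀⟩ := exists_minor U hli
  obtain ⟨P, hP, hmin⟩ := Finset.exists_min_image
    (Finset.univ.filter fun P : Fin d → ι => (sub U P).det ≠ 0)
    (fun P => padicValInt q (sub U P).det) ⟨P₀, Finset.mem_filter.2 ⟨Finset.mem_univ _, hP₀⟩⟩
  rw [Finset.mem_filter] at hP
  have hcr : ∀ j l, ∑ i, (sub U P).adjugate j i * U i l =
      (sub U (Function.update P j l)).det := by
    intro j l
    have h1 : ∑ i, (sub U P).adjugate j i * U i l =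
        ((sub U P).adjugate.mulVec fun i => U i l) j := rfl
    rw [h1, ← Matrix.cramer_eq_adjugate_mulVec, Matrix.cramer_apply]
    congr 1
    ext i j'
    rw [Matrix.updateCol_apply]
    show _ = U i (Function.update P j l j')
    rw [Function.update_apply]
    split_ifs <;> rfl
  have hC : ∀ j l, ∃ c : ℤ_[q], ((sub U P).det : ℤ_[q]) * c =
      ((∑ i, (sub U P).adjugate j i * U i l : ℤ) : ℤ_[q]) := by
    intro j l
    rw [hcr]
    refine padic_dvd hP.2 ?_
    by_cases h0 : (sub U (Function.update P j l)).det = 0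
    · exact Or.inl h0
    · exact Or.inr (hmin _ (Finset.mem_filter.2 ⟨Finset.mem_univ _, h0⟩))
  choose C hC using hC
  refine ⟨P, (sub U P).det, fun j i => (sub U P).adjugate j i, C, ?_, hP.2, det_bd hU P, ?_, ?_,
    hC⟩
  · intro j j' hjj
    by_contra hne
    apply hP.2
    exact Matrix.det_zero_of_column_eq hne fun i => by
      show U i (P j) = U i (P j')
      rw [hjj]
  · intro j l
    rw [hcr]
    exact det_bd hU _
  · intro j j'
    have h1 := congrFun (congrFun (Matrix.adjugate_mul (sub U P)) j) j'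
    rw [Matrix.mul_apply, Matrix.smul_apply, Matrix.one_apply] at h1
    refine Eq.trans h1 ?_
    split_ifs
    · rw [smul_eq_mul, mul_one]
    · rw [smul_zero]

end Pool.Agent.H51.AG
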