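import Pool.Agent.H38.AG.Targets

/-!
# MP_7ecdd4_nt: contraction of the dense part (MCN)
-/

set_option autoImplicit false

open Pool.Agent.H38.RB Pool.Agent.H38.PS Pool.Agent.H82.RD Pool.Agent.H38.AB Pool.Agent.H38.AG

namespace Pool.Agent.H51.AG

/-- the coordinates in `Q₀` are replaced by `0` -/
def prj {ι : Type} [DecidableEq ι] (Q₀ : Finset ι) : (ι → ℚ) →ₗ[ℚ] (ι → ℚ) where
  toFun v := fun i => if i ∈ Q₀ then 0 else v i
  map_add' v w := by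
    funext i
    show (if i ∈ Q₀ then (0 : ℚ) else v i + w i) =
      (if i ∈ Q₀ then 0 else v i) + (if i ∈ Q₀ then 0 else w i)
    split_ifs
    · rw [add_zero]
    · rfl
  map_smul' c v := by
    funext i
    show (if i ∈ Q₀ then (0 : ℚ) else c * v i) = c * (if i ∈ Q₀ then 0 else v i)
    split_ifs
    · rw [mul_zero]
    · rfl

lemma ker_prj {ι : Type} [DecidableEq ι] (Q₀ : Finset ι) : LinearMap.ker (prj Q₀) = sp0 Q₀ := by
  ext v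
  rw [LinearMap.mem_ker]
  constructor
  · intro h i hi
    have h1 := congrFun h i
    have h2 : (if i ∈ Q₀ then 0 else v i) = (0 : ℚ) := h1
    rwa [if_neg hi] at h2
  · intro h
    funext i
    show (if i ∈ Q₀ then 0 else v i) = (0 : ℚ)
    split_ifs with hi
    · rfl
    · exact h i hi

lemma DD_prj {ι : Type} [Fintype ι] [DecidableEq ι] (Λ : Submodule ℚ (ι → ℚ)) (Q₀ Q : Finset ι) :
    DD (Λ.map (prj Q₀)) Q + DD Λ Q₀ ≤ DD Λ (Q ∪ Q₀) := by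
  obtain ⟨A, hA⟩ : ∃ A : Submodule ℚ (ι → ℚ), A = Λ ⊓ sp0 (Q ∪ Q₀) := ⟨_, rfl⟩
  have h1 := LinearMap.finrank_range_add_finrank_ker ((prj Q₀).domRestrict A)
  rw [LinearMap.range_domRestrict, LinearMap.ker_domRestrict, ker_prj,
    ← Submodule.finrank_map_subtype_eq A, Submodule.map_comap_subtype] at h1
  have h2 : DD (Λ.map (prj Q₀)) Q ≤ Module.finrank ℚ (A.map (prj Q₀)) := by
    refine Submodule.finrank_mono ?_
    rintro w ⟨⟨v, hv, rfl⟩, hw⟩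
    refine ⟨v, ?_, rfl⟩
    rw [hA]
    refine ⟨hv, fun i hi => ?_⟩
    rw [Finset.mem_union, not_or] at hi
    have h3 : (if i ∈ Q₀ then 0 else v i) = (0 : ℚ) := hw i hi.1
    rwa [if_neg hi.2] at h3
  have h3 : DD Λ Q₀ ≤ Module.finrank ℚ ↥(A ⊓ sp0 Q₀) := by
    refine Submodule.finrank_mono ?_
    rintro v ⟨hv, hv'⟩
    rw [hA]
    exact ⟨⟨hv, fun i hi => hv' i fun h => hi (Finset.mem_union_right _ h)⟩, hv'⟩
  have h4 : DD Λ (Q ∪ Q₀) = Module.finrank ℚ A := by rw [hA]; rfl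
  omega

theorem pf_MCN : T_MCN := by
  intro ι _ _ Λ μ b hμ hb hD
  obtain ⟨Q₀, -, hQ₀⟩ := Finset.exists_max_image (Finset.univ : Finset (Finset ι))
    (fun Q => (DD Λ Q : ℝ) - 2 * ∑ i ∈ Q, μ i) ⟨∅, Finset.mem_univ _⟩
  have h1 : ∑ i ∈ Q₀, μ i ≤ b := by
    have h2 := hQ₀ ∅ (Finset.mem_univ _)
    have h3 := hD Q₀
    have h4 : (0 : ℝ) ≤ DD Λ ∅ := Nat.cast_nonneg _
    rw [Finset.sum_empty, mul_zero, sub_zero] at h2
    linarith
  refine ⟨Q₀, Λ.map (prj Q₀), h1, fun v hv => Submodule.mem_map_of_mem hv, fun Q => ?_⟩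
  have h2 : ((DD (Λ.map (prj Q₀)) Q : ℕ) : ℝ) + DD Λ Q₀ ≤ DD Λ (Q ∪ Q₀) := by
    exact_mod_cast DD_prj Λ Q₀ Q
  have h3 := hQ₀ (Q ∪ Q₀) (Finset.mem_univ _)
  have h4 : ∑ i ∈ Q ∪ Q₀, μ i ≤ ∑ i ∈ Q, μ i + ∑ i ∈ Q₀, μ i := by
    rw [← Finset.sum_union_inter]
    have : 0 ≤ ∑ i ∈ Q ∩ Q₀, μ i := Finset.sum_nonneg fun i _ => hμ i
    linarith
  linarith

end Pool.Agent.H51.AG
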